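import Pool.Agent.Lib.MP_ab8df0_nt.B.Auto2
import Pool.Agent.Lib.MP_ab8df0_nt.P.N3D

/-! Constants, proof tree and the result of the computation. -/

set_option maxRecDepth 100000

namespace Pool.Agent.Lib.MP_ab8df0_nt.T.B63b

open Pool.Agent.Lib.MP_ab8df0_nt.B Pool.Agent.Lib.MP_ab8df0_nt.P

def vs : Cs := [([0, 1], 1), ([], 1), ([], 1), ([], 1), ([], 1), ([], 1), ([], 1), ([], 1), ([], 1), ([], 1), ([], 1), 
  ([4, 0, 0, 0, 0, 1], 4),
  ([10, 10, 10, 10, 10], 1),
  ([5, 10, 15, 20, 25, 20, 15, 10, 5], 1),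
  ([-20, -20, -20, -20, -20], 1),
  ([80, 160, 240, 320, 400, 320, 240, 160, 80], 1),
  ([0, 32, 0, 0, 0, 0, 16, 0, 0, 0, 0, 2], 1),
  ([-64, 32, 0, 0, 0, 0, 16, 0, 0, 0, 0, 2], 1),
  ([-128, 0, 64, 0, 0, 16, 0, -8, 0, 0, 4, 0, -2], 1),
  ([0, 64, 0, 0, 0, 0, 32, 0, 0, 0, 0, 4], 1),
  ([-16384, 16384, -16384, -16384, 20480, -16384, 28672, -10240, -4096, 14336, -4096, 4096, 512, -1024, 1280], 1),
  ([3145728, 3145728, -3145728, -1572864, 2359296, -3145728, -1572864, 1572864, 393216, -393216, -589824, 196608, 393216, 0, -49152], 1),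
  ([0, 0, 0, 49152, -49152, 0, -73728, 0, 12288, -12288, 0, -18432, 0, 3072, -3072], 1),
  ([-226492416, 226492416, -113246208, 113246208, -226492416, 169869312, 56623104, -56623104, 28311552, 0, 28311552, 0, -7077888, 7077888], 1),
  ([-1], 1),
  ([4096, 0, -2048, 0, 0, 0, 0, -512], 1),
  ([0, 1024, 0, 0, 0, 0, 0, 0, 0, 0, 0, 64], 1),
  ([-4718592, 9437184, -4718592, -3932160, 3932160, 4325376, -8650752, 4325376, 3145728, -3145728, 393216, -786432, 393216, 344064, -344064], 1),
  ([64, 32, 0, 0, 0, 0, 16, 0, 0, 0, 0, 2], 1),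
  ([4, 0, 0, 2], 1),
  ([-16384, 0, 16384, -16384, 4096, 8192, 12288, 10240, -4096, -2048, 2048, 3072, -512, -1024, 256], 1),
  ([256, -64, 0, 0, 0, -32, -64, 0, 0, 0, -8, -4], 1),
  ([0, 0, 0, -16384, 16384, 0, 24576, 0, -4096, 4096, 0, 6144, 0, -1024, 1024], 1),
  ([-75497472, 226492416, -37748736, -37748736, 37748736, 18874368, -169869312, 56623104, 66060288, -37748736, -18874368, -18874368, 16515072, 2359296, -7077888], 1),
  ([3], 1),
  ([3, 3, 3, 3, 3], 1),
  ([5, 5, 5, 5, 5], 1),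
  ([812815, 806475, 800195, 793975, 787815, 172100, 170800, 169500, 168200, 166900, 13200, 13100, 13000, 12900, 12800], 3),
  ([1052415940, 1044255640, 1036158800, 1028125000, 1020153700, 222932360, 221204560, 219490000, 217788500, 216100000, 17096500, 16964000, 16832500, 16702000, 16572500], 3),
  ([0, 1], 1),
  ([-8, 0, 0, 0, 0, 4, 0, 0, 0, 0, 1], 24),
  ([125, 122, 122, 122, 122, 26, 26, 26, 26, 26, 2, 2, 2, 2, 2], 3)]

def c0 : EC := ⟨12, 13, 14, 15, [16, 17, 18, 19, 20, 21, 22, 23, 24, 25, 26, 27], [16, 28, 29, 19, 30, 31, 32, 33, 34, 25, 26, 27]⟩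

def M (t0 : ℤ) (k0 : ℕ) : List Hyp := [
  .disc 1 t0 k0,
  .eq 2 (.add (.mul (.num 2) (.inv (.add (.num 1) (.mul (.var 1) (.var 11))))) (.neg (.num 1))),
  .pw 3 2 (.add (.num 1) (.mul (.num 3) (.sq (.var 2)))),
  .cls (.mul (.add (.var 3) (.neg (.num 1))) (.var 35)) [],
  .eq 4 (.add (.num 1) (.mul (.num 2) (.inv (.add (.var 3) (.neg (.num 1)))))),
  .eq 5 (.mul (.var 36) (.sq (.var 4))),
  .on c0 false 5 6,
  .lin 7 (.mul (.add (.num 1) (.mul (.var 1) (.var 11))) (.add (.num 1) (.mul (.num 1) (.var 11)))) (.mul (.num (-2)) (.var 11)),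
  .lin 8 (.add (.sq (.sq (.var 3))) (.mul (.var 39) (.add (.mul (.var 3) (.sq (.var 3))) (.mul (.var 39) (.add (.sq (.var 3)) (.mul (.var 39) (.add (.var 3) (.var 39)))))))) (.mul (.num 3) (.mul (.add (.var 2) (.var 40)) (.var 7))),
  .lin 9 (.mul (.add (.var 3) (.neg (.num 1))) (.add (.var 39) (.neg (.num 1)))) (.mul (.num (-2)) (.var 8)),
  .eq 10 (.mul (.var 36) (.mul (.add (.var 4) (.var 41)) (.var 9))),
  .dq 5 37 1 1 1 10]

def k0 : Cut := ⟨[], [0], [[false, false, false, false, false, true, false, false, false, false, false, false, false]], [[false, true, false, false, false, false, false, false, false, false, false, false, false], [false, false, false, true, false, false, false, false, false, false, false, false, false], [false, false, false, false, false, false, false, false, false, true, false, false, false], [false, true, true, false, false, false, false, false, false, false, false, false, false], [false, false, false, true, false, true, false, false, false,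 false, false, true, false], [false, true, false, false, false, true, false, false, true, true, false, false, false], [false, true, true, false, false, true, false, true, false, true, false, false, false], [false, false, true, true, false, false, false, true, true, false, false, true, true], [true, false, false, false, false, false, false, false, false, false, false, false, false], [true, false, false, true, true, false, false, false, false, false, false, false, false], [true, true, true, false, false, false, true, false, false, false, false, false, false], [true, false, true, false, false, true, true, false, false, true, true, false, false]], [[false, false, false, false, false, false, false, false, false, true, false, false, false], [false, true, false, false, false, false, false, false, false, false, false, false, false], [false, true, false, false, true, false, false, false, false, false, false, false, false], [false, false, true, false, false, false, false, false,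 false, false, false, false, false], [false, false, true, false, false, false, false, false, false, true, true, false, false], [true, false, false, false, false, false, false, false, false, false, false, false, false], [false, false, false, false, true, false, false, false, false, true, false, true, false], [true, false, false, true, true, false, false, true, false, false, false, false, false], [true, true, false, true, false, false, true, false, false, false, false, false, false], [false, false, false, true, false, false, false, false, false, false, false, false, false], [true, true, false, true, false, false, false, false, false, false, false, true, true], [true, false, true, false, false, true, false, false, false, false, false, false, false], [true, false, false, false, false, true, true, true, true, false, false, false, false]]⟩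

def k1 : Cut := ⟨[0], [], [[true, false, false, false, false, false, false, false, false, false, false, false, false]], [[false, true, false, false, false, false, false, false, false, false, false, false, false], [false, false, false, false, true, false, false, false, false, false, false, false, false], [false, false, false, false, false, true, false, false, false, false, false, false, false], [false, true, true, false, false, false, false, false, false, false, false, false, false], [true, false, false, false, true, true, false, false, false, false, false, true, false], [true, false, true, false, false, false, false, false, true, false, false, false, false], [true, true, true, false, false, true, false, false, false, true, false, false, false], [true, false, true, false, true, false, false, false, true, false, false, true, true], [false, false, false, false, false, false, false, true, false, false, false, false, false], [true, false, false, true, true, false, false,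 false, false, false, false, false, false], [true, true, true, false, false, false, true, false, false, false, false, false, false], [true, false, true, false, false, true, true, false, false, true, true, false, false]], [[true, false, false, false, false, false, false, false, false, false, false, false, false], [false, true, false, false, false, false, false, false, false, false, false, false, false], [false, true, false, false, true, false, false, false, false, false, false, false, false], [true, false, true, false, false, false, false, false, false, false, true, false, false], [false, false, true, false, false, false, false, false, false, false, false, false, false], [false, false, false, true, false, false, false, false, false, false, false, false, false], [true, false, false, false, true, false, false, false, false, false, false, true, false], [false, false, false, false, false, false, false, false, false, true, false, false, false], [true, true, false, false, true,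 false, true, false, false, false, false, false, false], [true, false, false, true, true, false, false, true, false, false, false, false, false], [true, true, false, false, true, false, false, true, false, false, false, true, true], [true, false, true, true, false, true, false, false, false, false, false, false, false], [true, false, false, true, false, true, true, false, true, false, false, false, false]]⟩

def A : List AH := [
  .ec c0 4 ([1539, -3078, 1539, 0, 0, 326, -652, 326, 0, 0, 25, -50, 25], 15) ([1539, -3078, 1539, 0, 0, 326, -652, 326, 0, 0, 25, -50, 25], 240) k0 k1,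
  .on c0 false 37 38]

theorem auto : (baseOk 10 vs && A.all (AH.ok FDN3 10 vs)) = true := by decide +kernel

def r0_1 : Tree := .fin 54 85 89 [[ce 1 136 4 13 0xab0002e008620]] (.newt 93 [[ce (-2) 136 5 15 0x5ac400981c00c48521c, ce 1 136 3 15 0xb5122222180]] (.set 92 [[]] (.half 54 90 57 [ce 0 136 5 14 0x3524f190f698024b58] (ce (-1) 136 5 15 0x7ccc04e4016903273ca) (.fin 54 90 94 [[ce 0 136 4 13 0x6b008ae008620]] (.newt 98 [[ce (-2) 136 5 15 0x7ac444881020c401214, ce 1 136 3 15 0x1b5922222180]] (.set 97 [[]] (.half 54 95 56 [ce 0 136 5 14 0x3524f190f698024b58] (ce (-1) 136 5 15 0x3cccb7d501388361152) (.fin 54 95 99 [[ce 0 136 4 13 0x2b0842e00c628]] (.newt 103 [[ce 0 136 5 15 0x7ad820a81870c441008, ce (-1) 136 3 15 0x135902202180]] (.set 102 [[]] (.half 54 100 57 [ce (-1) 136 5 15 0x7088aa340e2b88258c8] (ce 0 136 5 15 0x6c882554a8611d219d4) (.fin 54 100 104 [[ce (-1) 136 4 15 0x4a494a042cc8664]] (.newt 108 [[ce 0 136 5 15 0x479545a44b5311c5949, ce (-1) 136 3 14 0x178046125a4]]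 (.set 107 [[]] (.tr 105 [[ce 0 136 5 15 0xd102739963813a7b81]] (.half 54 109 56 [ce 0 136 5 15 0x580d1fb1e3814290ec1] (ce 0 136 5 15 0x7104676c9ccc9902705) (.fin 54 109 110 [[ce 0 136 4 15 0xc6ddcea7eeceb6d]] (.newt 114 [[ce 2 136 5 15 0x35b27e1854bcd86360f, ce (-3) 136 3 15 0x9c3004a6890]] (.set 113 [[]] (.edead 54 111 57 [false, false, false, false, true, false, true, false, false, true, false, false] [ce (-22) 136 5 15 0x3d1176f1df97d460356]))))))))))))))))))))

def r0_2 : Tree := .set 43 [[ce 0 136 7 11 0x200000003180000001b]] (.oroot 44 [[]] [(ce 0 136 7 12 0x660000001940000000e00, ce (-2) 136 7 11 0x1f800000001800000079)] (.set 46 [[ce 0 136 7 15 0x284117b91768c51c6680d70203]] (.set 47 [[]] (.yrt 48 [] (ce 2 136 5 15 0x588234044e3808c401d) (.split 42 (.set 43 [[ce 0 136 8 11 0x880000000063000000009b]] (.oroot 44 [[]] [(ce 0 136 8 12 0x3300000000e5000000009c00, ce (-2) 136 8 11 0x3e000000008300000000f9)] (.set 46 [[ce 0 136 8 15 0x8a88913d642ee862c78c6886dc8403]]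 (.set 47 [[]] (.newt 59 [[ce 2 136 5 15 0x1904f625003b08e600d, ce (-3) 136 3 14 0x15d064a0d05]] (.add 59 55 false [[ce (-6) 136 5 15 0x340423e40f0b0d053d2]] (.half 54 61 56 [ce 2 136 5 14 0x3524f190f698024b58] (ce (-3) 136 5 15 0x5cd885c48d2983210c6) (.fin 54 61 62 [[ce 2 136 4 13 0x6b000ee008e20]] (.newt 66 [[ce (-4) 136 5 15 0x3ad482b81c40dc8520c, ce 3 136 3 15 0x1b1122222180]] (.set 65 [[]] (.half 54 63 57 [ce 1 136 5 14 0x3524f190f698024b58] (ce (-2) 136 5 15 0x5cc064e50d2913232ce) (.fin 54 63 67 [[ce 1 136 4 13 0x2b0006e000e20]] (.newt 71 [[ce (-4) 136 5 15 0x1ad486881c00dc8520c, ce 3 136 3 15 0x1b1122222180]] (.set 70 [[]] (.half 54 68 56 [ce 1 136 5 14 0x3524f190f698024b58] (ce (-2) 136 5 15 0x1cd803c58d2883252d6) (.fin 54 68 72 [[ce 1 136 4 13 0xeb000ee008e20]] (.newt 76 [[ce (-2) 136 5 15 0x7ac402981c00dc8521c, ce 1 136 3 15 0x1b1122222180]] (.set 75 [[]] (.half 54 73 57 [ce 0 136 5 14 0x3524f190f698024b58] (ce (-1) 136 5 15 0x1ec0c2c5050813a71de) (.fin 54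 73 77 [[ce 0 136 4 13 0xab0086e008e20]] (.newt 81 [[ce (-2) 136 5 15 0x1ac446881020dc01214, ce 1 136 3 15 0xb1922222180]] (.set 80 [[]] (.half 54 78 56 [ce 0 136 5 14 0x3524f190f698024b58] (ce (-1) 136 5 15 0x5fc871f4091b83e5146) (.fin 54 78 82 [[ce 0 136 4 15 0x806b084ee00ce28]] (.newt 86 [[ce 0 136 5 15 0x1ad822a81870dc41008, ce (-1) 136 3 14 0x31902202180]] (.set 85 [[]] (.half 54 83 57 [ce (-1) 136 5 15 0x129cae35802a88a78c8] (ce 0 136 5 15 0x6d04054524600d25ad0) (.fin 54 83 87 [[ce (-1) 136 4 15 0xca094a8824c0e64]] (.newt 91 [[ce 0 136 5 15 0x468d21b447130143a41, ce (-1) 136 3 15 0x1378046125a4]] (.set 90 [[]] (.tr 88 [[ce 0 136 5 15 0xc00c50812380ba5889]] (.half 54 92 56 [ce 0 136 5 15 0x580d1fb1e3814290ec1] (ce 0 136 5 15 0x2140f67d5cdf9140481) (.fin 54 92 93 [[ce 0 136 4 14 0x8138e6ba686f25]] (.newt 97 [[ce 2 136 5 15 0x572e7c2952bec06141f, ce (-3) 136 3 15 0x9c3004a6890]] (.set 96 [[]] (.edead 54 94 57 [false, false, false, false, true, false, true, false,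 false, true, false, false] [ce (-22) 136 5 15 0x3d1176f1df97d460356])))))))))))))))))))))))))))))))))))) (.set 43 [[ce 0 136 8 11 0x1800000000d3000000007b]] (.oroot 44 [[]] [(ce 0 136 7 12 0x860000000140000003e00, ce (-2) 136 8 11 0x8e00000000330000000039)] (.set 46 [[ce 0 136 8 15 0x8a8851ad242e0822a74c68869ca483]] (.set 47 [[]] (.newt 59 [[ce 2 136 5 15 0x59143624087b08e220d, ce (-3) 136 3 14 0x155064a0d05]] (.add 59 55 false [[ce (-6) 136 5 15 0x7c1c654c05590f07146]] (.half 54 61 56 [ce 2 136 5 14 0x3524f190f698024b58] (ce (-3) 136 5 15 0x3440036d8778816304a) (.fin 54 61 62 [[ce 2 136 4 13 0xa10002a008a60]] (.newt 66 [[ce (-4) 136 5 15 0x38d482b99c42cc8520c, ce 3 136 3 15 0x91122222180]] (.set 65 [[]] (.half 54 63 57 [ce 1 136 5 14 0x3524f190f698024b58] (ce (-2) 136 5 15 0x7458a04d077b1161242) (.fin 54 63 67 [[ce 1 136 4 13 0xe1000aa000a60]] (.newt 71 [[ce (-4) 136 5 15 0x18d486899c02cc8520c, ce 3 136 3 15 0x191122222180]] (.set 70 [[]] (.half 54 68 56 [ce 1 136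 5 14 0x3524f190f698024b58] (ce (-2) 136 5 15 0x7440856c8779816725a) (.fin 54 68 72 [[ce 1 136 4 13 0x210002a008a60]] (.newt 76 [[ce (-2) 136 5 15 0x78c402999c02cc8521c, ce 1 136 3 15 0x91122222180]] (.set 75 [[]] (.half 54 73 57 [ce 0 136 5 14 0x3524f190f698024b58] (ce (-1) 136 5 15 0x3658c26d0f1811e5352) (.fin 54 73 77 [[ce 0 136 4 13 0x61008aa008a60]] (.newt 81 [[ce (-2) 136 5 15 0x18c446899022cc01214, ce 1 136 3 15 0x191922222180]] (.set 80 [[]] (.half 54 78 56 [ce 0 136 5 14 0x3524f190f698024b58] (ce (-1) 136 5 15 0x3740d77c034a81a71ca) (.fin 54 78 82 [[ce 0 136 4 15 0x80a108c2a004a68]] (.newt 86 [[ce 0 136 5 15 0x18d822a99872cc41008, ce (-1) 136 3 14 0x11102202180]] (.set 85 [[]] (.half 54 83 57 [ce (-1) 136 5 15 0x128c4e248c4898a19d8] (ce 0 136 5 15 0x1c1c0654a42011a39d8) (.fin 54 83 87 [[ce (-1) 136 4 15 0xc2854280a4c06e4]] (.newt 91 [[ce 0 136 5 15 0x2755911c5b1bd3638d5, ce (-1) 136 3 15 0x111004a36ca4]] (.set 90 [[]] (.half 54 88 56 [ce 0 136 5 15 0x580d1fb1e3814290ec1]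 (ce 0 136 5 14 0x1d8f57d1e8d954169d) (.fin 54 88 92 [[ce 0 136 4 15 0x845f0e672e0eba9]] (.newt 96 [[ce 2 136 5 15 0x283ef3280f821b5164b, ce (-3) 136 3 15 0x1acf00da29b0]] (.set 95 [[]] (.edead 54 93 57 [false, false, false, false, true, false, true, false, false, true, false, false] [ce (-22) 136 5 15 0x2c7087266ac5d8a2a84]))))))))))))))))))))))))))))))))))))))))

def r0_3 : Tree := .set 43 [[ce 0 136 6 11 0x140000009c0000003]] (.oroot 44 [[]] [(ce 0 136 6 12 0xbc000003d000000900, ce (-2) 136 6 11 0x1a000000dc0000029)] (.set 46 [[ce 0 136 6 15 0xaa01874ba04af7281acf23]] (.set 47 [[]] (.split 42 (.set 43 [[ce 0 136 7 11 0x15000000013800000003]] (.oroot 44 [[]] [(ce 0 136 7 12 0x5e0000001f40000003200, ce (-2) 136 7 11 0xe80000003b800000069)] (.set 46 [[ce 0 136 7 15 0x129401c2d3760a4bce288db1e63]] (.set 47 [[]] (.yrt 48 [] (ce 2 136 5 15 0x4a966034046a10c109d) (.split 42 (.set 43 [[ce 0 136 8 11 0x5400000000a70000000083]] (.oroot 44 [[]] [(ce 0 136 8 12 0xaf00000000fd00000000e400,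 ce (-2) 136 8 11 0x7a00000000f700000000e9)] (.set 46 [[ce 0 136 8 15 0xca280161346ee0d22f9ca8466c3ce3]] (.set 47 [[]] (.newt 59 [[ce 2 136 5 15 0x90ca415482a186729d, ce (-3) 136 3 14 0x17006984c25]] (.add 59 55 false [[ce (-5) 136 6 15 0x3102cd3f2a07aa82d024b82]] (.half 54 61 56 [ce 1 136 5 15 0x40d4ed3186390ca5ad8] (ce (-2) 136 5 15 0x4fceb7c4816983e4148) (.fin 54 61 62 [[ce 1 136 4 15 0xc043000ce0002a0]] (.newt 66 [[ce (-2) 136 5 15 0xad4c7981040c805200, ce 1 136 3 14 0x11926222980]] (.set 65 [[]] (.half 54 63 57 [ce 0 136 5 15 0x62d869308a790ca1ac8] (ce (-1) 136 5 15 0x6fd676e5056b0366150) (.fin 54 63 67 [[ce 0 136 4 15 0x40030004e0002a0]] (.newt 71 [[ce (-2) 136 5 15 0x6ad403881460c881218, ce 1 136 3 15 0x111126222980]] (.set 70 [[]] (.half 54 68 56 [ce 0 136 5 15 0x30dc6c10c21814019c0] (ce (-1) 136 5 15 0x2e4a23f50b5a9b261c8) (.fin 54 68 72 [[ce 0 136 4 15 0x80c3804ce8042a8]] (.newt 76 [[ce 0 136 5 15 0x2ac8e7a81c30c8c100c, ce (-1) 136 3 15 0x91106202980]] (.set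 75 [[]] (.half 54 73 57 [ce (-1) 136 5 15 0x12deef1c0d2b8c6294c] (ce 0 136 5 15 0x1fc2016c2e729d46ac6) (.fin 54 73 77 [[ce (-1) 136 4 15 0x42e18aca28ccae4]] (.newt 81 [[ce 0 136 5 15 0x4703819d0e1389e795d, ce (-1) 136 3 15 0xb1026636da4]] (.set 80 [[]] (.tr 78 [[ce 0 136 5 15 0x5c1aa610d3798343a99]] (.half 54 82 56 [ce 0 136 5 15 0x78ed2481a7a3d221c0d] (ce 0 136 5 15 0x62ac68e19bd711b644f) (.fin 54 82 83 [[ce 0 136 4 15 0x455ea26f06a41cd]] (.newt 87 [[ce 2 136 5 15 0x3ee81d39b9fcd0f0503, ce (-3) 136 3 14 0x183044a6090]] (.set 86 [[]] (.edead 54 84 57 [false, false, false, false, true, false, true, false, false, true, false, false] [ce (-22) 136 5 15 0x2c534751d4ee46b2240])))))))))))))))))))))))))))) (.set 43 [[ce 0 136 7 11 0x1900000000b800000063]] (.oroot 44 [[]] [(ce 0 136 8 12 0xbf000000001d00000000c400, ce (-2) 136 8 11 0x4a00000000a70000000029)] (.set 46 [[ce 0 136 8 15 0xca28c1d1f46e00920f5ca8462c5c63]] (.set 47 [[]] (.newt 59 [[ce 2 136 5 15 0x491ce414406a186309d,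 ce (-3) 136 3 14 0x17806984c25]] (.add 59 55 false [[ce (-5) 136 6 15 0x2d03c91388018200901459a]] (.half 54 61 56 [ce 1 136 5 15 0x42c4c9308a1b0ca39d8] (ce (-2) 136 5 15 0x1ccef4f4850b8764040) (.fin 54 61 62 [[ce 1 136 4 15 0xc0cf00046000a20]] (.newt 66 [[ce (-2) 136 5 15 0x8d4c7989042d805200, ce 1 136 3 14 0x35926222980]] (.set 65 [[]] (.half 54 63 57 [ce 0 136 5 15 0x60c84d318e5b0ca79c8] (ce (-1) 136 5 15 0x7cd6b7d5090b07e6048) (.fin 54 63 67 [[ce 0 136 4 15 0x408f000c6000a20]] (.newt 71 [[ce (-2) 136 5 15 0x68d403889462d881218, ce 1 136 3 15 0x135126222980]] (.set 70 [[]] (.half 54 68 56 [ce 0 136 5 15 0x32cc4811c67a14078c0] (ce (-1) 136 5 15 0x7f4a20e50f389fa62c0) (.fin 54 68 72 [[ce 0 136 4 15 0x804f80446804a28]] (.newt 76 [[ce 0 136 5 15 0x28c8e7a89c32d8c100c, ce (-1) 136 3 15 0x1b5106202980]] (.set 75 [[]] (.half 54 73 57 [ce (-1) 136 5 15 0x12deef1c0d2b8c6294c] (ce 0 136 5 15 0x2dc2047cae709944bd6) (.fin 54 73 77 [[ce (-1) 136 4 15 0x4ae582caa8cc264]] (.newt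 81 [[ce 0 136 5 15 0x640b81bc065381e3b55, ce (-1) 136 3 15 0x1b1826636da4]] (.set 80 [[]] (.tr 78 [[ce 0 136 5 15 0x7f0a221053399b47a81]] (.half 54 82 56 [ce 0 136 5 15 0x59f1a480a1e2c2a4d11] (ce 0 136 5 15 0x62bccfd1d1c70d7554b) (.fin 54 82 83 [[ce 0 136 4 15 0x4d9ea26b0ea4dc9]] (.newt 87 [[ce 2 136 5 15 0x3ff8b919b99ec0f0603, ce (-3) 136 3 14 0x183044a6090]] (.set 86 [[]] (.edead 54 84 57 [false, false, false, false, true, false, true, false, false, true, false, false] [ce (-22) 136 5 15 0x2c534751d4ee46b2240])))))))))))))))))))))))))))))))))) (.set 43 [[ce 0 136 7 11 0x700000002f800000073]] (.oroot 44 [[]] [(ce 0 136 7 12 0x6e0000000340000002a00, ce (-2) 136 7 11 0x18800000027800000009)] (.set 46 [[ce 0 136 7 15 0x1294613253770647fe288d32623]] (.set 47 [[]] (.yrt 48 [] (ce 2 136 5 15 0x6a8e0014880a00c739d) (.split 42 (.set 43 [[ce 0 136 8 11 0x9c00000000df00000000f3]] (.oroot 44 [[]] [(ce 0 136 8 12 0x37000000000d00000000d400, ce (-2) 136 8 11 0x22000000004f0000000089)]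 (.set 46 [[ce 0 136 8 15 0x4a28619994ee70b21f7c2846cc4c23]] (.set 47 [[]] (.newt 59 [[ce 2 136 5 15 0x29144034c448086119d, ce (-3) 136 3 14 0x17806984c25]] (.add 59 55 false [[ce (-5) 136 6 15 0x30347357a029ec0f02c6b6]] (.half 54 61 56 [ce 1 136 5 15 0x22c00d0184590c61bc8] (ce (-2) 136 5 15 0x275e554d875a81a03cc) (.fin 54 61 62 [[ce 1 136 4 15 0xc0890000a000ee0]] (.newt 66 [[ce (-2) 136 5 15 0x68d441b99042d005210, ce 1 136 3 14 0x11926222980]] (.set 65 [[]] (.half 54 63 57 [ce 0 136 5 15 0x40c4890088190c65bd8] (ce (-1) 136 5 15 0x756926d0b1b01261c4) (.fin 54 63 67 [[ce 0 136 4 15 0x40c90008a000ee0]] (.newt 71 [[ce (-2) 136 5 15 0x48d485a99462d081208, ce 1 136 3 15 0x111126222980]] (.set 70 [[]] (.half 54 68 56 [ce 0 136 5 15 0x52c88c20c03814c5ad0] (ce (-1) 136 5 15 0x5daa55d0129996214c) (.fin 54 68 72 [[ce 0 136 4 15 0x800980c0a80cee8]] (.newt 76 [[ce 0 136 5 15 0x8c861899c32d0c101c, ce (-1) 136 3 15 0x91906202980]] (.set 75 [[]] (.half 54 73 57 [ce (-1) 136 5 15 0x12deef1c0d2b8c6294c]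 (ce 0 136 5 15 0x6c4e644d2a3081408c2) (.fin 54 73 77 [[ce (-1) 136 4 15 0x4a2d824ea0c4a64]] (.newt 81 [[ce 0 136 5 15 0x76cf5014905b5f458d5, ce (-1) 136 3 15 0x93822a124a4]] (.set 80 [[]] (.half 54 78 56 [ce 0 136 5 15 0x3bb59388e590d6e3d81] (ce 0 136 5 15 0x22e09ef09dd60d355cf) (.fin 54 78 82 [[ce 0 136 4 15 0x4fdc6aaf466c909]] (.newt 86 [[ce 2 136 5 15 0x137a1321ef838fa2557, ce (-3) 136 3 14 0x28f04da21b0]] (.set 85 [[]] (.edead 54 83 57 [false, false, false, false, true, false, true, false, false, true, false, false] [ce (-22) 136 5 15 0x15aa15bf0cf692d109e]))))))))))))))))))))))))))) (.set 43 [[ce 0 136 8 11 0xac000000004f00000000d3]] (.oroot 44 [[]] [(ce 0 136 8 12 0x47000000002d00000000b400, ce (-2) 136 8 11 0xf200000000ff00000000c9)] (.set 46 [[ce 0 136 8 15 0x4a28210954ee9072ff3c28468c6ca3]] (.set 47 [[]] (.newt 59 [[ce 2 136 5 15 0x69048035cc08086539d, ce (-3) 136 3 14 0x17006984c25]] (.add 59 55 false [[ce (-5) 136 6 15 0x3f004309da0cb642b01c08e]] (.half 54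 61 56 [ce 1 136 5 15 0x20c02900887b0c638c8] (ce (-2) 136 5 15 0x745e927d8b7885202c4) (.fin 54 61 62 [[ce 1 136 4 15 0xc00500082000660]] (.newt 66 [[ce (-2) 136 5 15 0x6ad441b91040c005210, ce 1 136 3 14 0x15926222980]] (.set 65 [[]] (.half 54 63 57 [ce 0 136 5 15 0x42c4ad018c3b0c678d8] (ce (-1) 136 5 15 0x1456d35d0f3b05a60dc) (.fin 54 63 67 [[ce 0 136 3 15 0x104a000801b0]] (.newt 71 [[ce (-2) 136 5 15 0x4ad485a91460c081208, ce 1 136 3 15 0x115126222980]] (.set 70 [[]] (.half 54 68 56 [ce 0 136 5 15 0x50c8a821c45a14c7bd0] (ce (-1) 136 5 15 0x56daa24d050b9de2244) (.fin 54 68 72 [[ce 0 136 4 15 0x808580c8280c668]] (.newt 76 [[ce 0 136 5 15 0xac861891c30c0c101c, ce (-1) 136 3 15 0x195906202980]] (.set 75 [[]] (.half 54 73 57 [ce (-1) 136 5 15 0x12deef1c0d2b8c6294c] (ce 0 136 5 15 0x5e4e617caa328542bd2) (.fin 54 73 77 [[ce (-1) 136 4 15 0x42298a4e20c42e4]] (.newt 81 [[ce 0 136 5 15 0x15d7d03518194741acd, ce (-1) 136 3 15 0x1b3022a124a4]] (.set 80 [[]] (.half 54 78 56 [ce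 0 136 5 15 0x59b15388eb93d660e9d] (ce 0 136 5 15 0x22f03fc05fa411724d3) (.fin 54 78 82 [[ce 0 136 4 15 0x479c6aa34e6cd0d]] (.newt 86 [[ce 2 136 5 15 0x336237206fe387a644f, ce (-3) 136 3 14 0x28f04da21b0]] (.set 85 [[]] (.edead 54 83 57 [false, false, false, false, true, false, true, false, false, true, false, false] [ce (-22) 136 5 15 0x15aa15bf0cf692d109e])))))))))))))))))))))))))))))))))))))

def r0_0 : Tree := .set 11 [[ce (-2) 136 1 1 0x1]] (.set 12 [[]] (.set 13 [[]] (.set 14 [[]] (.set 15 [[]] (.set 16 [[]] (.set 17 [[]] (.set 18 [[]] (.set 19 [[]] (.set 20 [[]] (.set 21 [[]] (.set 22 [[]] (.set 23 [[]] (.set 24 [[]] (.set 25 [[]] (.set 26 [[]] (.set 27 [[]] (.set 28 [[]] (.set 29 [[]] (.set 30 [[]] (.set 31 [[]] (.set 32 [[]] (.set 33 [[]] (.set 34 [[]] (.set 35 [[]] (.set 36 [[]] (.set 37 [[ce 0 136 64 1 0xaaaaaaaaaaaaaaab]] (.set 38 [[ce 0 136 64 1 0xaaaaaaaaaaaaaaab]] (.set 39 [[]] (.set 40 [[ce (-3) 136 64 1 0xaaaaaaaaaaaaaaab]] (.set 41 [[ce 0 136 64 1 0xaaaaaaaaaaaaaaab]]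 (.piv [16, 17, 18, 19, 20, 21, 22, 23, 24, 25, 26, 27] [[ce 0 136 1 0 0x0], [ce (-3) 136 1 1 0x1], [ce (-4) 136 1 15 0x4000], [ce (-4) 136 1 8 0x80], [ce (-7) 136 5 15 0x692595118c56ae698eb], [ce (-11) 136 5 14 0x3ad3acc14b4274152], [ce (-8) 136 5 15 0x6a35fcdfea37d29111c], [ce (-12) 136 5 15 0x79f81cafa4f654d7882], [ce 0 136 1 1 0x1], [ce (-6) 136 5 15 0x335eb0a4cdb5a36af39], [ce (-6) 136 5 13 0x1d000006800006000], [ce (-10) 136 5 14 0x12b0923a122a86690c]] (.piv [16, 28, 29, 19, 30, 31, 32, 33, 34, 25, 26, 27] [[ce 0 136 1 0 0x0], [ce (-3) 136 1 1 0x1], [ce (-1) 136 1 1 0x1], [ce (-4) 136 1 8 0x80], [ce (-7) 136 5 15 0x692595118c56ae698eb], [ce (-4) 136 5 15 0x592abd92abd94e64a8e], [ce (-8) 136 5 15 0x6a35fcdfea37d29111c], [ce (-12) 136 5 15 0x79f81cafa4f654d7882], [ce 0 136 1 1 0x1], [ce (-6) 136 5 15 0x335eb0a4cdb5a36af39], [ce (-6) 136 5 13 0x1d000006800006000], [ce (-10) 136 5 14 0x12b0923a122a86690c]] (.piv [] [] (.disc 42 (.set 43 [[ce 0 136 1 1 0x1]] (.oroot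 44 [[]] [(ce 0 136 3 12 0x8001c0010, ce (-2) 136 3 11 0x100000001)] (.split 42 (.set 43 [[ce 0 136 1 1 0x1]] (.oroot 44 [[]] [(ce 0 136 4 12 0x4000070000a0, ce (-2) 136 4 11 0x80000000001)] (.dead 45 58 [[]] [] [ce 0 136 1 1 0x1]))) (.set 43 [[ce 0 136 4 6 0xb0000b]] (.oroot 44 [[]] [(ce 0 136 4 12 0xb000050000c0, ce (-2) 136 4 11 0x60000b00009)] (.split 42 (.set 43 [[ce 0 136 4 6 0xb0000b]] (.oroot 44 [[]] [(ce 0 136 5 12 0x580000540000180, ce (-2) 136 5 11 0x18000016000019)] (.set 46 [[ce 0 136 5 15 0x2911291d815d8837283]] (.set 47 [[]] (.split 42 (.set 43 [[ce 0 136 6 6 0xac000002b]] (.oroot 44 [[]] [(ce 0 136 6 12 0xac0000015000000b00, ce (-2) 136 6 11 0x16000000ac0000019)] (.set 46 [[ce 0 136 6 15 0xa231144b98097b281bcd03]] (.set 47 [[]] (.split 42 (.set 43 [[ce 0 136 6 6 0xac000002b]] (.oroot 44 [[]] [(ce 0 136 7 12 0x560000001540000001600, ce (-2) 136 7 11 0x5800000015800000059)] (.set 46 [[ce 0 136 7 15 0x284310a11758055d6680df3a43]] (.set 47 [[]] (.yrt 48 []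 (ce 2 136 5 15 0x388a9425ca1818c611d) (.split 42 (.set 43 [[ce 0 136 8 6 0xab00000000ab]] (.oroot 44 [[]] [(ce 0 136 8 12 0xab000000005500000000ac00, ce (-2) 136 8 11 0x5600000000ab0000000059)] (.set 46 [[ce 0 136 8 15 0xa08b10504ae580257ace8867c74c3]] (.set 47 [[]] (.newt 59 [[ce 2 136 5 15 0x790c52058c1918e410d, ce (-3) 136 3 14 0x155064a0d05]] (.set 49 [[ce 0 136 7 11 0xe400000039000000039]] (.set 50 [[ce (-2) 136 8 12 0xde00000000ef000000001200]] (.set 51 [[ce 0 136 8 15 0xed8f116788268424638f860c45879]] (.set 52 [[]] (.dent 59 55 53 true [[ce (-3) 136 4 15 0x20068e00a88c085]] [[ce 0 136 1 1 0x1]] [[ce 0 136 1 1 0x1]] (.deep 54 56 57 61 62 42 4 [123] [] [] (.pnil 64) (.pnil 64) (.set 63 [[]] (.set 64 [[]] (.set 65 [[]] (.set 66 [[ce (-8) 136 5 15 0x3ac480881c00d48520c]] (.set 67 [[ce (-4) 136 4 15 0x1acc5e0ee0dc4ae]] (.half 54 68 56 [ce 3 136 5 14 0x3524f190f698024b58] (ce (-4) 136 5 15 0x7cccc5e4810993a12da) (.fin 54 68 69 [[ce 3 136 4 13 0x2b000ae008620]] (.newt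 73 [[ce (-6) 136 5 15 0x1ad484981c40d48520c, ce 5 136 3 15 0x195122222180]] (.set 72 [[]] (.half 54 70 57 [ce 2 136 5 14 0x3524f190f698024b58] (ce (-3) 136 5 15 0x7cc424c5014903a32c2) (.fin 54 70 74 [[ce 2 136 4 13 0xeb0002e000620]] (.newt 78 [[ce (-6) 136 5 15 0x7ad480a81c00d48520c, ce 5 136 3 15 0x95122222180]] (.set 77 [[]] (.half 54 75 56 [ce 2 136 5 14 0x3524f190f698024b58] (ce (-3) 136 5 15 0x3cdc83e5814893a52ca) (.fin 54 75 79 [[ce 2 136 4 13 0xab000ae008620]] (.newt 83 [[ce (-4) 136 5 15 0x5ad484b81c40d48520c, ce 3 136 3 15 0x195122222180]] (.set 82 [[]] (.half 54 80 57 [ce 1 136 5 14 0x3524f190f698024b58] (ce (-2) 136 5 15 0x3cd462c4010803a72d2) (.fin 54 80 84 [[ce 1 136 4 13 0x6b0002e000620]] (.newt 88 [[ce (-4) 136 5 15 0x3ad480881c00d48520c, ce 3 136 3 15 0x195122222180]] (.set 87 [[]] (.half 54 85 56 [ce 1 136 5 14 0x3524f190f698024b58] (ce (-2) 136 5 15 0x7cdc01e4814b93a10da) (.fin 54 85 89 [[ce 1 136 4 13 0x2b000ae008620]] (.newt 93 [[ce (-2) 136 5 15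 0x1ac404981c00d48521c, ce 1 136 3 15 0x195122222180]] (.set 92 [[]] (.half 54 90 57 [ce 0 136 5 14 0x3524f190f698024b58] (ce (-1) 136 5 15 0x7cc4c0e4016b03231c2) (.fin 54 90 94 [[ce 0 136 4 13 0xeb0082e008620]] (.newt 98 [[ce (-2) 136 5 15 0x3ac440881020d401214, ce 1 136 3 15 0x95922222180]] (.set 97 [[]] (.half 54 95 56 [ce 0 136 5 14 0x3524f190f698024b58] (ce (-1) 136 5 15 0x3ed473d5093a836534a) (.fin 54 95 99 [[ce 0 136 4 13 0xab084ae00c628]] (.newt 103 [[ce 0 136 5 15 0x3ad824a81870d441008, ce (-1) 136 3 14 0x15902202180]] (.set 102 [[]] (.half 54 100 57 [ce (-1) 136 5 15 0x3080aa350a2988218c8] (ce 0 136 5 15 0x2d802555a0231d259dc) (.fin 54 100 104 [[ce (-1) 136 4 15 0x4ac94a0c2cc8664]] (.newt 108 [[ce 0 136 5 15 0x45858584435311c1b59, ce (-1) 136 3 14 0x378046125a4]] (.set 107 [[]] (.tr 105 [[ce 0 136 5 15 0xf10e3189e3803a3991]] (.half 54 109 56 [ce 0 136 5 15 0x580d1fb1e3814290ec1] (ce 0 136 5 15 0x5384017c18ae990660d) (.fin 54 109 110 [[ce 0 136 4 15 0x42d146276e4e3ed]]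 (.newt 114 [[ce 2 136 5 15 0x74bafa3858bcc86760f, ce (-3) 136 3 15 0x9c3004a6890]] (.set 113 [[]] (.edead 54 111 57 [false, false, false, false, true, false, true, false, false, true, false, false] [ce (-22) 136 5 15 0x3d1176f1df97d460356])))))))))))))))))))))))))))))))))))))))))))))))))))))) (.set 43 [[ce 0 136 8 11 0x90000000001b000000008b]] (.oroot 44 [[]] [(ce 0 136 8 12 0xbb0000000075000000008c00, ce (-2) 136 8 11 0xa6000000005b0000000099)] (.set 46 [[ce 0 136 8 15 0xa087175c4ae78c2376ce8863c9443]] (.set 47 [[]] (.newt 59 [[ce 2 136 5 15 0x391c9204845918e030d, ce (-3) 136 3 14 0x15d064a0d05]] (.set 49 [[ce 0 136 8 11 0x3900000000c20000000039]] (.set 50 [[ce (-2) 136 8 12 0x7e000000002f000000009200]] (.set 51 [[ce 0 136 8 15 0xced89166380228a266f878606438f9]] (.set 52 [[]] (.dent 59 55 53 true [[ce (-3) 136 4 15 0xa0828e88288c805]] [[ce 0 136 14 15 0x800c80220000028008002000480100000008004002c004001001]] [[ce 0 136 12 15 0xc00380a80000c00000800280800000c00400f00800801]]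 (.deep 54 56 57 61 62 42 4 [123] [] [] (.pnil 64) (.pnil 64) (.set 63 [[]] (.set 64 [[]] (.set 65 [[]] (.set 66 [[ce (-8) 136 5 15 0x7ac484881c00c48520c]] (.set 67 [[ce (-4) 136 4 15 0x1a4c5e0ee0dc4a6]] (.half 54 68 56 [ce 3 136 5 14 0x3524f190f698024b58] (ce (-4) 136 5 15 0x7cd401e4810b93a50c2) (.fin 54 68 69 [[ce 3 136 4 13 0xab0002e008620]] (.newt 73 [[ce (-6) 136 5 15 0x5ad480981c40c48520c, ce 5 136 3 15 0x1b5122222180]] (.set 72 [[]] (.half 54 70 57 [ce 2 136 5 14 0x3524f190f698024b58] (ce (-3) 136 5 15 0x7ccc60c5014b03a70ca) (.fin 54 70 74 [[ce 2 136 4 13 0x6b000ae000620]] (.newt 78 [[ce (-6) 136 5 15 0x3ad484a81c00c48520c, ce 5 136 3 15 0x1b5122222180]] (.set 77 [[]] (.half 54 75 56 [ce 2 136 5 14 0x3524f190f698024b58] (ce (-3) 136 5 15 0x3cc4c7e5814a93a10d2) (.fin 54 75 79 [[ce 2 136 4 13 0x2b0002e008620]] (.newt 83 [[ce (-4) 136 5 15 0x1ad480b81c40c48520c, ce 3 136 3 15 0xb5122222180]] (.set 82 [[]] (.half 54 80 57 [ce 1 136 5 14 0x3524f190f698024b58] (ce (-2)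 136 5 15 0x3cdca6c4010a03a30da) (.fin 54 80 84 [[ce 1 136 4 13 0xeb000ae000620]] (.newt 88 [[ce (-4) 136 5 15 0x7ad484881c00c48520c, ce 3 136 3 15 0xb5122222180]] (.set 87 [[]] (.half 54 85 56 [ce 1 136 5 14 0x3524f190f698024b58] (ce (-2) 136 5 15 0x7cc445e4814993a52c2) r0_1))))))))))))))))))))))))))))))))))))))) r0_2))))) r0_3))))) (.set 43 [[ce 0 136 5 11 0x3800002200001f]] (.oroot 44 [[]] [(ce 0 136 5 12 0xe80000440000300, ce (-2) 136 5 11 0x10000012000011)] (.dead 45 58 [[]] [] [ce 0 136 5 15 0x7d3ef319c2730825281])))))))))))))))))))))))))))))))))))))))))))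

theorem r0 : run FDN3.ds FDN3.es [[ce 0 136 64 1 0xaaaaaaaaaaaaaaab]] vs.length (fullH 10 vs (M 0 0) A) r0_0 = true := by
  decide +kernel

theorem relT {K : Type} [Field K] [NumberField K] {a : K} {pl : List (Place K)} {ph : List (K →+* ℝ)}
    {w : List (IsDedekindDomain.HeightOneSpectrum (NumberField.RingOfIntegers K))}
    (hP : Pack K FDN3 a pl ph w) : (4 * cval a vs 11) = ((a * ((((a) ^ 2)) ^ 2)) + 4) := by
  have h : ((((4 : ℤ) : K) * cval a vs 11) + (-(((cval a vs 0 * ((((cval a vs 0) ^ 2)) ^ 2)) + ((4 : ℤ) : K))))) = 0 :=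
    hP.rel vs (.add (.mul (.num 4) (.var 11)) (.neg (.add (.mul (.var 0) (.sq (.sq (.var 0)))) (.num 4)))) (by decide +kernel)
  have h0 : cval a vs 0 = a := by simp [cval, vs, ev]
  try rw [h0] at h
  try push_cast at h
  linear_combination h

theorem relA {K : Type} [Field K] [NumberField K] {a : K} {pl : List (Place K)} {ph : List (K →+* ℝ)}
    {w : List (IsDedekindDomain.HeightOneSpectrum (NumberField.RingOfIntegers K))}
    (hP : Pack K FDN3 a pl ph w) : cval a vs 12 = (2 * cval a vs 36) := by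
  have h : (cval a vs 12 + (-((((2 : ℤ) : K) * cval a vs 36)))) = 0 :=
    hP.rel vs (.add (.var 12) (.neg (.mul (.num 2) (.var 36)))) (by decide +kernel)
  have h0 : cval a vs 0 = a := by simp [cval, vs, ev]
  try rw [h0] at h
  try push_cast at h
  linear_combination h

theorem relB {K : Type} [Field K] [NumberField K] {a : K} {pl : List (Place K)} {ph : List (K →+* ℝ)}
    {w : List (IsDedekindDomain.HeightOneSpectrum (NumberField.RingOfIntegers K))}
    (hP : Pack K FDN3 a pl ph w) : (5 * cval a vs 13) = ((cval a vs 36) ^ 2) := by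
  have h : ((((5 : ℤ) : K) * cval a vs 13) + (-(((cval a vs 36) ^ 2)))) = 0 :=
    hP.rel vs (.add (.mul (.num 5) (.var 13)) (.neg (.sq (.var 36)))) (by decide +kernel)
  have h0 : cval a vs 0 = a := by simp [cval, vs, ev]
  try rw [h0] at h
  try push_cast at h
  linear_combination h

theorem relL {K : Type} [Field K] [NumberField K] {a : K} {pl : List (Place K)} {ph : List (K →+* ℝ)}
    {w : List (IsDedekindDomain.HeightOneSpectrum (NumberField.RingOfIntegers K))}
    (hP : Pack K FDN3 a pl ph w) : (5 * cval a vs 35) = (3 * cval a vs 36) := by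
  have h : ((((5 : ℤ) : K) * cval a vs 35) + (-((((3 : ℤ) : K) * cval a vs 36)))) = 0 :=
    hP.rel vs (.add (.mul (.num 5) (.var 35)) (.neg (.mul (.num 3) (.var 36)))) (by decide +kernel)
  have h0 : cval a vs 0 = a := by simp [cval, vs, ev]
  try rw [h0] at h
  try push_cast at h
  linear_combination h

theorem relG {K : Type} [Field K] [NumberField K] {a : K} {pl : List (Place K)} {ph : List (K →+* ℝ)}
    {w : List (IsDedekindDomain.HeightOneSpectrum (NumberField.RingOfIntegers K))}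
    (hP : Pack K FDN3 a pl ph w) : (cval a vs 40 * (1 + (1 * cval a vs 11))) = (1 - (1 * cval a vs 11)) := by
  have h : ((cval a vs 40 * (((1 : ℤ) : K) + (((1 : ℤ) : K) * cval a vs 11))) + (-((((1 : ℤ) : K) + (-((((1 : ℤ) : K) * cval a vs 11))))))) = 0 :=
    hP.rel vs (.add (.mul (.var 40) (.add (.num 1) (.mul (.num 1) (.var 11)))) (.neg (.add (.num 1) (.neg (.mul (.num 1) (.var 11)))))) (by decide +kernel)
  have h0 : cval a vs 0 = a := by simp [cval, vs, ev]
  try rw [h0] at h
  try push_cast at h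
  linear_combination h

theorem relX {K : Type} [Field K] [NumberField K] {a : K} {pl : List (Place K)} {ph : List (K →+* ℝ)}
    {w : List (IsDedekindDomain.HeightOneSpectrum (NumberField.RingOfIntegers K))}
    (hP : Pack K FDN3 a pl ph w) : (cval a vs 39 * ((((cval a vs 39) ^ 2)) ^ 2)) = (1 + (3 * ((cval a vs 40) ^ 2))) := by
  have h : ((cval a vs 39 * ((((cval a vs 39) ^ 2)) ^ 2)) + (-((((1 : ℤ) : K) + (((3 : ℤ) : K) * ((cval a vs 40) ^ 2)))))) = 0 :=
    hP.rel vs (.add (.mul (.var 39) (.sq (.sq (.var 39)))) (.neg (.add (.num 1) (.mul (.num 3) (.sq (.var 40)))))) (by decide +kernel)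
  have h0 : cval a vs 0 = a := by simp [cval, vs, ev]
  try rw [h0] at h
  try push_cast at h
  linear_combination h

theorem relU {K : Type} [Field K] [NumberField K] {a : K} {pl : List (Place K)} {ph : List (K →+* ℝ)}
    {w : List (IsDedekindDomain.HeightOneSpectrum (NumberField.RingOfIntegers K))}
    (hP : Pack K FDN3 a pl ph w) : (cval a vs 41 * (cval a vs 39 - 1)) = (cval a vs 39 + 1) := by
  have h : ((cval a vs 41 * (cval a vs 39 + (-(((1 : ℤ) : K))))) + (-((cval a vs 39 + ((1 : ℤ) : K))))) = 0 :=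
    hP.rel vs (.add (.mul (.var 41) (.add (.var 39) (.neg (.num 1)))) (.neg (.add (.var 39) (.num 1)))) (by decide +kernel)
  have h0 : cval a vs 0 = a := by simp [cval, vs, ev]
  try rw [h0] at h
  try push_cast at h
  linear_combination h

theorem relx {K : Type} [Field K] [NumberField K] {a : K} {pl : List (Place K)} {ph : List (K →+* ℝ)}
    {w : List (IsDedekindDomain.HeightOneSpectrum (NumberField.RingOfIntegers K))}
    (hP : Pack K FDN3 a pl ph w) : cval a vs 37 = (cval a vs 36 * ((cval a vs 41) ^ 2)) := by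
  have h : (cval a vs 37 + (-((cval a vs 36 * ((cval a vs 41) ^ 2))))) = 0 :=
    hP.rel vs (.add (.var 37) (.neg (.mul (.var 36) (.sq (.var 41))))) (by decide +kernel)
  have h0 : cval a vs 0 = a := by simp [cval, vs, ev]
  try rw [h0] at h
  try push_cast at h
  linear_combination h

theorem core {K : Type} [Field K] [NumberField K] {a : K} {pl : List (Place K)} {ph : List (K →+* ℝ)}
    {w : List (IsDedekindDomain.HeightOneSpectrum (NumberField.RingOfIntegers K))}
    (hP : Pack K FDN3 a pl ph w) {G : Prop} (t g X u x y dG dX du dx : K)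
    (hdisc : Q2 0 (t - ((0 : ℤ) : K)))
    (hG : g = ((2 * ((1 + (t * cval a vs 11)))⁻¹) - 1))
    (hX : X ^ 5 = (1 + (3 * ((g) ^ 2))))
    (hcls : IsSquare ((X - 1) * cval a vs 35))
    (hu : u = (1 + (2 * ((X - 1))⁻¹)))
    (hx : x = (cval a vs 36 * ((u) ^ 2)))
    (hon : On (cval a vs 12) (cval a vs 13) x y)
    (hdG : ((1 + (t * cval a vs 11)) * (1 + (1 * cval a vs 11))) * dG = ((-2) * cval a vs 11))
    (hdX : (((((X) ^ 2)) ^ 2) + (cval a vs 39 * ((X * ((X) ^ 2)) + (cval a vs 39 * (((X) ^ 2) + (cval a vs 39 * (X + cval a vs 39))))))) * dX = (3 * ((g + cval a vs 40) * dG)))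
    (hdu : ((X - 1) * (cval a vs 39 - 1)) * du = ((-2) * dX))
    (hdx : dx = (cval a vs 36 * ((u + cval a vs 41) * du)))
    (hdqn : (1 * t - 1) ≠ 0) (hdq : x - cval a vs 37 = (1 * t - 1) * dx) :
    G := by
  refine hP.cover (fr := [t, g, X, u, x, y, dG, dX, du, dx]) (M := M) (cs := [[ce 0 136 64 1 0xaaaaaaaaaaaaaaab]]) rfl auto
    (l := [(0, 0)]) (by decide) ?_ hdisc fun tt kk hq => ?_
  · exact List.forall_mem_cons.2 ⟨⟨_, r0⟩, fun _ h => absurd h List.not_mem_nil⟩
  · refine List.forall_mem_cons.2 ⟨?_, List.forall_mem_cons.2 ⟨?_, List.forall_mem_cons.2 ⟨?_, List.forall_mem_cons.2 ⟨?_, List.forall_mem_cons.2 ⟨?_, List.forall_mem_cons.2 ⟨?_, List.forall_mem_cons.2 ⟨?_, List.forall_mem_cons.2 ⟨?_, List.forall_mem_cons.2 ⟨?_, List.forall_mem_cons.2 ⟨?_, List.forall_mem_cons.2 ⟨?_, List.forall_mem_cons.2 ⟨?_, fun _ h => absurd h List.not_mem_nil⟩⟩⟩⟩⟩⟩⟩⟩⟩⟩⟩⟩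
    · exact hq
    · show g = ((((2 : ℤ) : K) * ((((1 : ℤ) : K) + (t * cval a vs 11)))⁻¹) + (-(((1 : ℤ) : K))))
      try push_cast
      linear_combination hG
    · show X ^ 5 = (((1 : ℤ) : K) + (((3 : ℤ) : K) * ((g) ^ 2)))
      try push_cast
      linear_combination hX
    · exact span_of_isSquare (x := ((X + (-(((1 : ℤ) : K)))) * cval a vs 35)) ((by push_cast; ring : ((X + (-(((1 : ℤ) : K)))) * cval a vs 35) = ((X - 1) * cval a vs 35)) ▸ hcls)
    · show u = (((1 : ℤ) : K) + (((2 : ℤ) : K) * ((X + (-(((1 : ℤ) : K)))))⁻¹))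
      try push_cast
      linear_combination hu
    · show x = (cval a vs 36 * ((u) ^ 2))
      try push_cast
      linear_combination hx
    · exact hon
    · show ((((1 : ℤ) : K) + (t * cval a vs 11)) * (((1 : ℤ) : K) + (((1 : ℤ) : K) * cval a vs 11))) * dG = (((-2 : ℤ) : K) * cval a vs 11)
      try push_cast
      linear_combination hdG
    · show (((((X) ^ 2)) ^ 2) + (cval a vs 39 * ((X * ((X) ^ 2)) + (cval a vs 39 * (((X) ^ 2) + (cval a vs 39 * (X + cval a vs 39))))))) * dX = (((3 : ℤ) : K) * ((g + cval a vs 40) * dG))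
      try push_cast
      linear_combination hdX
    · show ((X + (-(((1 : ℤ) : K)))) * (cval a vs 39 + (-(((1 : ℤ) : K))))) * du = (((-2 : ℤ) : K) * dX)
      try push_cast
      linear_combination hdu
    · show dx = (cval a vs 36 * ((u + cval a vs 41) * du))
      try push_cast
      linear_combination hdx
    · show (((1 : ℤ) : K) * t - ((1 : ℤ) : K)) ≠ 0 ∧ x - cval a vs 37 = (((1 : ℤ) : K) * t - ((1 : ℤ) : K)) * dx
      try push_cast
      exact ⟨by simpa using hdqn, by linear_combination hdq⟩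

end Pool.Agent.Lib.MP_ab8df0_nt.T.B63b
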